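import Pool.Agent.Helper92.ETC.B1
import Pool.Agent.Helper92.ETC.R1
import Pool.Agent.Helper33.ETC.S1
import Pool.Agent.Helper33.ETC.S2
import Pool.Agent.Helper16.ETC.N12
import Pool.Agent.Helper61.ETC.N3
import Pool.Agent.Helper44.ETC.O1235
import Pool.Agent.Helper29.ETC.D2
import Pool.Agent.Helper39.ETC.G49
import Pool.Agent.Helper39.ETC.G1011

/-! Block ETC-H1: the Hasse principle for symbols (helper17). -/

set_option autoImplicit false

namespace Pool.Helper37.ETC

open Module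

namespace H1

variable {p : ℕ} [Fact p.Prime] {G : Type*} [Group G] [TopologicalSpace G]

/-- cup product of characters -/
def cup (x y : G → ZMod p) : G → G → ZMod p := fun σ τ => x σ * y τ

/-- the space of locally constant coboundaries -/
def Cob (p : ℕ) [Fact p.Prime] (G : Type*) [Group G] [TopologicalSpace G] :
    Submodule (ZMod p) (G → G → ZMod p) where
  carrier := {c | IsCob p c}
  zero_mem' := ⟨fun _ => 0, IsLocallyConstant.const 0, fun σ τ => by simp⟩
  add_mem' := by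
    rintro c d ⟨f, hf, hc⟩ ⟨g, hg, hd⟩
    refine ⟨fun σ => f σ + g σ, hf.add hg, fun σ τ => ?_⟩
    simp only [Pi.add_apply, hc, hd]
    ring
  smul_mem' := by
    rintro r c ⟨f, hf, hc⟩
    refine ⟨fun σ => r * f σ, (IsLocallyConstant.const r).mul hf, fun σ τ => ?_⟩
    simp only [Pi.smul_apply, hc, smul_eq_mul]
    ring

/-- the space of characters -/
def Ch (p : ℕ) [Fact p.Prime] (G : Type*) [Group G] [TopologicalSpace G] :
    Submodule (ZMod p) (G → ZMod p) where
  carrier := {χ | IsCh p χ}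
  zero_mem' := ⟨fun _ _ => by simp, IsLocallyConstant.const 0⟩
  add_mem' := by
    rintro x y ⟨hx, hx'⟩ ⟨hy, hy'⟩
    refine ⟨fun σ τ => ?_, hx'.add hy'⟩
    simp only [Pi.add_apply, hx, hy]
    ring
  smul_mem' := by
    rintro r x ⟨hx, hx'⟩
    refine ⟨fun σ τ => ?_, (IsLocallyConstant.const r).mul hx'⟩
    simp only [Pi.smul_apply, hx, smul_eq_mul]
    ring

/-- the bilinear form of a functional -/
def form (l : (G → G → ZMod p) →ₗ[ZMod p] ZMod p) : Ch p G →ₗ[ZMod p] Ch p G →ₗ[ZMod p] ZMod p :=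
  LinearMap.mk₂ (ZMod p) (fun x y => l (cup x y))
    (fun x x' y => by
      rw [← map_add]
      congr 1
      funext σ τ
      simp [cup, add_mul])
    (fun r x y => by
      rw [← map_smul]
      congr 1
      funext σ τ
      simp [cup, mul_assoc])
    (fun x y y' => by
      rw [← map_add]
      congr 1
      funext σ τ
      simp [cup, mul_add])
    (fun r x y => by
      rw [← map_smul]
      congr 1
      funext σ τ
      simp [cup]
      ring)

lemma form_apply (l : (G → G → ZMod p) →ₗ[ZMod p] ZMod p) (x y : Ch p G) :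
    form l x y = l (cup x y) := rfl

lemma cup_add_mem (x y : Ch p G) : cup (x : G → ZMod p) y + cup (y : G → ZMod p) x ∈ Cob p G := by
  obtain ⟨x, hx, hx'⟩ := x
  obtain ⟨y, hy, hy'⟩ := y
  refine ⟨fun σ => -(x σ * y σ), (hx'.mul hy').neg, fun σ τ => ?_⟩
  simp only [cup, Pi.add_apply, hx, hy]
  ring

lemma form_anti {l : (G → G → ZMod p) →ₗ[ZMod p] ZMod p} (hl : ∀ c ∈ Cob p G, l c = 0)
    (x y : Ch p G) : form l x y = - form l y x := by
  rw [eq_neg_iff_add_eq_zero, form_apply, form_apply, ← map_add]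
  exact hl _ (cup_add_mem x y)

/-- the quotient by the radical -/
abbrev VV (l : (G → G → ZMod p) →ₗ[ZMod p] ZMod p) : Type _ := Ch p G ⧸ LinearMap.ker (form l)

/-- half of the descended form -/
def form1 (l : (G → G → ZMod p) →ₗ[ZMod p] ZMod p) : VV l →ₗ[ZMod p] Ch p G →ₗ[ZMod p] ZMod p :=
  (LinearMap.ker (form l)).liftQ (form l) le_rfl

lemma form1_mk (l : (G → G → ZMod p) →ₗ[ZMod p] ZMod p) (x y : Ch p G) :
    form1 l (Submodule.Quotient.mk x) y = form l x y := rfl

/-- the descended form -/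
def form2 (l : (G → G → ZMod p) →ₗ[ZMod p] ZMod p) (hl : ∀ c ∈ Cob p G, l c = 0) :
    VV l →ₗ[ZMod p] VV l →ₗ[ZMod p] ZMod p :=
  ((LinearMap.ker (form l)).liftQ (form1 l).flip (by
    intro x hx
    rw [LinearMap.mem_ker] at hx ⊢
    ext y
    have h1 : form l y x = 0 := by
      rw [form_anti hl, hx]
      simp
    exact h1)).flip

lemma form2_mk (l : (G → G → ZMod p) →ₗ[ZMod p] ZMod p) (hl : ∀ c ∈ Cob p G, l c = 0)
    (x y : Ch p G) :
    form2 l hl (Submodule.Quotient.mk x) (Submodule.Quotient.mk y) = l (cup x y) := rfl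

lemma form2_nondeg (l : (G → G → ZMod p) →ₗ[ZMod p] ZMod p) (hl : ∀ c ∈ Cob p G, l c = 0)
    (v : VV l) (h : ∀ w, form2 l hl v w = 0) : v = 0 := by
  obtain ⟨x, rfl⟩ := Submodule.Quotient.mk_surjective _ v
  rw [Submodule.Quotient.mk_eq_zero, LinearMap.mem_ker]
  ext y
  exact h (Submodule.Quotient.mk y)

section Field

variable [IsTopologicalGroup G] [CompactSpace G] [T2Space G] [TotallyDisconnectedSpace G]
  {K : Type*} [Field K] [MulSemiringAction G K] {ζ : K}

omit [TopologicalSpace G] [IsTopologicalGroup G] [CompactSpace G] [T2Space G]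
  [TotallyDisconnectedSpace G] in
lemma coe_mem_Fx (a : Fxs G K) : (a : K) ∈ (Fx G : Set K) := fun σ => a.2 σ

/-- the Kummer character of a nonzero element of the fixed field -/
noncomputable def kch (Gd : Good p G K ζ) (a : Fxs G K) (ha : a ≠ 0) : Ch p G :=
  ⟨(kum_exists Gd (coe_mem_Fx a) (by simpa using ha)).choose,
    (kum_exists Gd (coe_mem_Fx a) (by simpa using ha)).choose_spec.1⟩

lemma kch_kum (Gd : Good p G K ζ) (a : Fxs G K) (ha : a ≠ 0) :
    IsKum ζ (a : K) (kch Gd a ha : G → ZMod p) :=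
  (kum_exists Gd (coe_mem_Fx a) (by simpa using ha)).choose_spec.2

lemma kch_eq (Gd : Good p G K ζ) (a : Fxs G K) (ha : a ≠ 0) {χ : G → ZMod p}
    (h : IsKum ζ (a : K) χ) : (kch Gd a ha : G → ZMod p) = χ :=
  kum_unique Gd (by simpa using ha) (kch_kum Gd a ha) h

/-- the homomorphism to the quotient -/
noncomputable def phi (Gd : Good p G K ζ) (l : (G → G → ZMod p) →ₗ[ZMod p] ZMod p)
    (a : Fxs G K) : VV l :=
  open Classical in
  if ha : a ≠ 0 then Submodule.Quotient.mk (kch Gd a ha) else 0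

lemma phi_eq (Gd : Good p G K ζ) (l : (G → G → ZMod p) →ₗ[ZMod p] ZMod p) (a : Fxs G K)
    (ha : a ≠ 0) : phi Gd l a = Submodule.Quotient.mk (kch Gd a ha) := by
  unfold phi
  rw [dif_pos ha]

/-- a norm equation kills the symbol -/
lemma symbol_zero (Gd : Good p G K ζ) (l : (G → G → ZMod p) →ₗ[ZMod p] ZMod p)
    (hl : ∀ c ∈ Cob p G, l c = 0) (x : Fin p → Fxs G K) (a b : Fxs G K) (ha : a ≠ 0) (hb : b ≠ 0)
    (h : nf x a = b) : form2 l hl (phi Gd l a) (phi Gd l b) = 0 := by
  rw [phi_eq Gd l a ha, phi_eq Gd l b hb, form2_mk]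
  apply hl
  refine sym_of_nf Gd (coe_mem_Fx a) (by simpa using ha) (coe_mem_Fx b) (by simpa using hb)
    (kch_kum Gd a ha) (kch_kum Gd b hb) (fun i => (x i : K)) (fun i => coe_mem_Fx (x i)) ?_
  have h1 := map_nf (algebraMap (Fxs G K) K) x a
  rw [h] at h1
  exact h1.symm

/-- the Steinberg datum of a functional -/
noncomputable def datum (Gd : Good p G K ζ) (l : (G → G → ZMod p) →ₗ[ZMod p] ZMod p)
    (hl : ∀ c ∈ Cob p G, l c = 0) : SD p (Fxs G K) (VV l) where
  φ := phi Gd l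
  ω := form2 l hl
  mul := by
    intro x y hx hy
    rw [phi_eq Gd l x hx, phi_eq Gd l y hy, phi_eq Gd l _ (mul_ne_zero hx hy),
      ← Submodule.Quotient.mk_add]
    congr 1
    apply Subtype.ext
    exact kch_eq Gd _ (mul_ne_zero hx hy)
      (kum_mul Gd (by simpa using hx) (by simpa using hy) (kch_kum Gd x hx) (kch_kum Gd y hy))
  surj := by
    intro v
    obtain ⟨χ, rfl⟩ := Submodule.Quotient.mk_surjective _ v
    obtain ⟨a, ha, ha0, hk⟩ := kum_surj Gd χ.2
    have ha' : (⟨a, ha⟩ : Fxs G K) ≠ 0 := by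
      intro h
      exact ha0 (congrArg Subtype.val h)
    refine ⟨⟨a, ha⟩, ha', ?_⟩
    rw [phi_eq Gd l _ ha']
    congr 1
    apply Subtype.ext
    exact kch_eq Gd _ ha' hk
  nondeg := form2_nondeg l hl
  stein := by
    intro x hx hx1
    have hx2 : 1 - x ≠ 0 := sub_ne_zero.2 (Ne.symm hx1)
    rw [phi_eq Gd l x hx, phi_eq Gd l _ hx2, form2_mk]
    apply hl
    obtain ⟨α, hα⟩ := Gd.root (x : K)
    have h1 := nf_stein Gd.prim α
    rw [hα] at h1
    refine sym_of_nf Gd (coe_mem_Fx x) (by simpa using hx) (coe_mem_Fx (1 - x))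
      (fun h => hx2 (Subtype.ext h)) (kch_kum Gd x hx) (kch_kum Gd _ hx2)
      (fun j : Fin p => if (j : ℕ) = 0 then (1 : K) else if (j : ℕ) = 1 then -1 else 0) ?_ ?_
    · intro i σ
      split_ifs <;> simp
    · rw [h1]
      rfl

end Field

end H1

section Main

variable {p : ℕ} [Fact p.Prime] {G K : Type} [Group G] [TopologicalSpace G]
  [IsTopologicalGroup G] [CompactSpace G] [T2Space G] [TotallyDisconnectedSpace G] [Field K]
  [MulSemiringAction G K] {ζ : K}

/-- H1 -/
theorem hpsym (Gd : Good p G K ζ) (hfin : FinH1 p G) {a b : K} (ha : a ∈ (Fx G : Set K))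
    (ha0 : a ≠ 0) (hb : b ∈ (Fx G : Set K)) (hb0 : b ≠ 0) {χ ψ : G → ZMod p}
    (hχ : IsKum ζ a χ) (hψ : IsKum ζ b ψ)
    (hv : ∀ O : ValuationSubring K, O ≠ ⊤ → IsCob p (fun σ τ : Dec G O => χ σ * ψ τ))
    (ho : ∀ c : G, c * c = 1 → c ≠ 1 → χ c = 0 ∨ ψ c = 0) :
    IsCob p (fun σ τ => χ σ * ψ τ) := by
  classical
  by_contra hcon
  have hnot : H1.cup χ ψ ∉ H1.Cob p G := hcon
  obtain ⟨l, hl1, hl2⟩ := Submodule.exists_dual_map_eq_bot_of_notMem hnot inferInstance
  have hl : ∀ c ∈ H1.Cob p G, l c = 0 := by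
    intro c hc
    have h1 : l c ∈ (H1.Cob p G).map l := Submodule.mem_map_of_mem hc
    rw [hl2, Submodule.mem_bot] at h1
    exact h1
  apply hl1
  have hfinCh : Finite (H1.Ch p G) := hfin.to_subtype
  have : Finite (H1.VV l) := Quotient.finite _
  set A : Fxs G K := ⟨a, ha⟩ with hA
  set B : Fxs G K := ⟨b, hb⟩ with hB
  have hA0 : A ≠ 0 := fun h => ha0 (congrArg Subtype.val h)
  have hB0 : B ≠ 0 := fun h => hb0 (congrArg Subtype.val h)
  have key := (H1.datum Gd l hl).thmB (a := A) (b := B)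
    (fun x a b ha hb h => H1.symbol_zero Gd l hl x a b ha hb h) hA0 hB0 ?_ ?_
  · change H1.form2 l hl (H1.phi Gd l A) (H1.phi Gd l B) = 0 at key
    rw [H1.phi_eq Gd l A hA0, H1.phi_eq Gd l B hB0, H1.form2_mk, H1.kch_eq Gd A hA0 hχ,
      H1.kch_eq Gd B hB0 hψ] at key
    exact key
  · -- valuations
    intro O hO c hc
    obtain ⟨Q, hQ⟩ := exists_ext O
    have hQt : Q ≠ ⊤ := by
      rintro rfl
      apply hO
      rw [← hQ]
      ext x
      simp [res]
    have : CompactSpace (Dec G Q) :=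
      isCompact_iff_compactSpace.1 (dec_closed Gd.cont Q).isCompact
    have GdD : Good p (Dec G Q) K ζ := Gd.sub (Dec G Q)
    obtain ⟨x, hx1, hx2⟩ := nf_of_sym GdD (a := a) (b := b) (fun σ => ha σ) ha0 (fun σ => hb σ) hb0
      (χ := fun σ : Dec G Q => χ σ) (ψ := fun σ : Dec G Q => ψ σ)
      (fun α hα σ => hχ α hα σ) (fun α hα σ => hψ α hα σ) (hv Q hQt)
    have hc' : (c : K) ≠ 0 := by simpa using hc
    obtain ⟨d, hd, hnf⟩ := nf_cont Q x a hc'
    have hcl : ∀ i, ∃ e ∈ (Fx G : Set K), ∃ t ∈ Q, x i = e + d * t := fun i =>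
      incl_of_fixed_dec Gd Q (x i) (fun δ hδ => hx1 i ⟨δ, hδ⟩) d hd
    choose e he t ht hxe using hcl
    obtain ⟨s, hs, hs2⟩ := hnf (fun i => -t i) 0 (fun i => neg_mem (ht i)) Q.zero_mem
    have h1 : (fun i => x i + d * -t i) = e := by
      funext i
      rw [hxe i]
      ring
    rw [h1, mul_zero, add_zero, hx2] at hs2
    have h2 : ((nf (fun i => (⟨e i, he i⟩ : Fxs G K)) A : Fxs G K) : K) = nf e a := by
      have := map_nf (algebraMap (Fxs G K) K) (fun i => (⟨e i, he i⟩ : Fxs G K)) A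
      exact this
    refine ⟨fun i => ⟨e i, he i⟩, (nf (fun i => (⟨e i, he i⟩ : Fxs G K)) A - B) / c, ?_, ?_⟩
    · rw [← hQ]
      show ((((nf (fun i => (⟨e i, he i⟩ : Fxs G K)) A - B) / c : Fxs G K) : K)) ∈ Q
      have h3 : (((nf (fun i => (⟨e i, he i⟩ : Fxs G K)) A - B) / c : Fxs G K) : K) = s := by
        push_cast
        rw [h2, hs2]
        field_simp
        simp [hB]
      rw [h3]
      exact hs
    · field_simp
      ring
  · -- orderings
    intro hp P hP
    subst hp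
    by_contra hcon2
    push Not at hcon2
    obtain ⟨c, hc, hc1, hc2⟩ := exists_involution Gd P hP hcon2.1 hcon2.2 hA0 hB0
    have h2 : (2 : K) ≠ 0 := by
      intro h
      have h3 : (ζ - 1) ^ 2 = 0 := by
        have := Gd.prim.pow_eq_one
        linear_combination this - h * (ζ - 1)
      have h4 : ζ = 1 := by
        have := pow_eq_zero_iff (two_ne_zero) |>.1 h3
        exact sub_eq_zero.1 this
      exact Gd.prim.ne_one (by norm_num) h4
    have key2 : ∀ (e : K) (θ : G → ZMod 2), e ≠ 0 → IsKum ζ e θ → (∀ α : K, α ^ 2 = e → c • α = -α) →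
        θ c ≠ 0 := by
      intro e θ he hθ hα h0
      obtain ⟨α, hα2⟩ := Gd.root e
      have h3 := hθ α hα2 c
      rw [h0, hα α hα2] at h3
      simp only [ZMod.val_zero, pow_zero, one_mul] at h3
      have h4 : 2 * α = 0 := by linear_combination -h3
      rcases mul_eq_zero.1 h4 with h5 | h5
      · exact h2 h5
      · rw [h5] at hα2
        exact he (by rw [← hα2]; simp)
    rcases ho c hc hc1 with h | h
    · exact key2 a χ ha0 hχ (fun α hα => hc2 α (Or.inl hα)) h
    · exact key2 b ψ hb0 hψ (fun α hα => hc2 α (Or.inr hα)) h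

end Main

end Pool.Helper37.ETC
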